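import Pool.Agent.MP_bc14f3_gt.Mg.Main

namespace Pool.Agent.Results.MP_bc14f3_gt.DenseZeros

open Pool.Agent.MP_bc14f3_gt Polynomial

/-- The zeros of Alexander polynomials of alternating knots are dense in the complex plane. -/
theorem result (z : ℂ) (ε : ℝ) (hε : 0 < ε) :
    ∃ (w : List Move) (o : Pt w → Bool) (D : ℤ[X]) (α : ℂ),
      IsKnot w ∧ IsAlternating w ∧ IsOrientation o ∧ IsAlexander o D ∧ D ≠ 0 ∧
        α ≠ 0 ∧ aeval α D = 0 ∧ ‖α - z‖ < ε := by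
  obtain ⟨α, ⟨h0, w, o, D, h1, h2, h3, h4, h5, h6⟩, h⟩ :=
    Metric.mem_closure_iff.1 (dense_zero z) ε hε
  exact ⟨w, o, D, α, h1, h2, h3, h4, h5, h0, h6, by rwa [dist_comm, dist_eq_norm] at h⟩

end Pool.Agent.Results.MP_bc14f3_gt.DenseZeros
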